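import Pool.Agent.H28.LFP.CP

/-!
# Module [CP]: assembly
-/

set_option autoImplicit false

open Finset Filter Topology

namespace Pool.Agent.H28.LFP

open Pool.Agent.H91.LF
open Pool.Agent.H24.MR (lam)

variable {m k : ℕ}

/-- The primes dividing `L` contribute at most `L`. -/
theorem bad_primes (U : Finset ℕ) (hU : ∀ p ∈ U, p.Prime) (L : ℕ) (hL : 0 < L) (f : ℕ → ℝ)
    (hf : ∀ p, |f p| ≤ 1) :
    ∑ p ∈ U.filter (fun p => ¬ Nat.Coprime L p), (1 / (p : ℝ)) * f p ≤ L := by
  have h1 : U.filter (fun p => ¬ Nat.Coprime L p) ⊆ Icc 1 L := by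
    intro p hp
    obtain ⟨h1, h2⟩ := mem_filter.1 hp
    have hpp := hU p h1
    rw [Nat.coprime_comm, hpp.coprime_iff_not_dvd, not_not] at h2
    exact mem_Icc.2 ⟨hpp.one_le, Nat.le_of_dvd hL h2⟩
  calc _ ≤ ∑ p ∈ U.filter (fun p => ¬ Nat.Coprime L p), (1 : ℝ) := by
        apply Finset.sum_le_sum
        intro p hp
        have hpp := hU p (mem_filter.1 hp).1
        have h2 : (1:ℝ) ≤ p := by exact_mod_cast hpp.one_le
        have h3 : 1 / (p : ℝ) ≤ 1 := by
          rw [div_le_one (by linarith)]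
          exact h2
        have h4 : 0 ≤ 1 / (p : ℝ) := by positivity
        have h5 := (abs_le.1 (hf p)).2
        nlinarith
    _ = ((U.filter (fun p => ¬ Nat.Coprime L p)).card : ℝ) := by simp
    _ ≤ ((Icc 1 L).card : ℝ) := by exact_mod_cast Finset.card_le_card h1
    _ = L := by simp

theorem cp_main (h : StatementCORE) : StatementCP := by
  classical
  intro m k a b c j W cls hW hind
  obtain ⟨D, w, v, h0, hj⟩ := hind
  rcases Nat.eq_zero_or_pos D with hD | hD
  · -- the case `D = 0`: every prime separately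
    subst hD
    refine ⟨0, fun P M hM hT => ?_⟩
    have h1 : ∀ p ∈ primesLE P, (1 / (p : ℝ)) *
        (M.E (Fpr (fun i => a i + c i * (p : ℤ)) b W cls)) ^ 2 = 0 := by
      intro p _
      rw [h m k (fun i => a i + c i * p) b j W cls M hW ⟨0, w, v, by simpa using h0,
        by simpa using hj⟩ hM (hT _ _)]
      ring
    rw [Finset.sum_congr rfl h1]
    simp only [Finset.sum_const_zero, le_refl]
  -- the case `D > 0`
  have : NeZero W := ⟨hW.ne'⟩
  set L : ℕ := D * W with hL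
  have hL0 : 0 < L := Nat.mul_pos hD hW
  -- the window
  set K : ℤ := ∑ i, ((W : ℤ) + |w| + |a i| + |c i| + ∑ l, |b i l| * (W + |v l|)) with hK
  have hterm0 : ∀ i, 0 ≤ (W : ℤ) + |w| + |a i| + |c i| + ∑ l, |b i l| * (W + |v l|) :=
    fun i => by positivity
  set V : ℕ := K.toNat with hVdef
  have hV : ∀ i, (W : ℤ) + |w| + |a i| + |c i| + ∑ l, |b i l| * (W + |v l|) ≤ V := by
    intro i
    have h3 : (W : ℤ) + |w| + |a i| + |c i| + ∑ l, |b i l| * (W + |v l|) ≤ K :=
      Finset.single_le_sum (f := fun i => (W : ℤ) + |w| + |a i| + |c i| +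
        ∑ l, |b i l| * (W + |v l|)) (fun i _ => hterm0 i) (Finset.mem_univ i)
    exact h3.trans (Int.self_le_toNat K)
  set R : ℕ := 4 * V + 1 with hR
  set A := (Fin (m + 2) → ZMod W) × (Fin k → SignType × SignType) with hA
  refine ⟨2 * (4 * (R * Real.log (Fintype.card A))) + 2 * L + L, fun P M hM hT => ?_⟩
  set U : Finset ℕ := primesLE P with hU0
  have hU : ∀ p ∈ U, p.Prime := fun p hp => (mem_filter.1 hp).2
  set S : Finset ℕ := U.filter (fun p => Nat.Coprime L p) with hS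
  have hSp : ∀ p ∈ S, p.Prime := fun p hp => hU p (mem_filter.1 hp).1
  have hSP : ∀ p ∈ S, p ≤ P := fun p hp => (mem_Icc.1 (mem_filter.1 (mem_filter.1 hp).1).1).2
  have hScop : ∀ p ∈ S, Nat.Coprime L p := fun p hp => (mem_filter.1 hp).2
  -- the shifts
  set sp : ℕ → ℕ := fun p => sF D (p % L) with hsp
  set kp : ℕ → ℕ := fun p => (1 + sp p * p) / D with hkp
  have hrcop : ∀ p ∈ S, Nat.Coprime (p % L) D := by
    intro p hp
    have h1 : Nat.Coprime (p % L) L := by
      have := hScop p hp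
      unfold Nat.Coprime at this ⊢
      rw [← Nat.gcd_rec]
      exact this
    exact Nat.Coprime.coprime_dvd_right (Dvd.intro _ rfl) h1
  have hspec : ∀ p ∈ S, sp p < D ∧ D ∣ 1 + sp p * (p % L) :=
    fun p hp => sF_spec D (p % L) hD (hrcop p hp)
  have hDp : ∀ p ∈ S, D ∣ 1 + sp p * p := by
    intro p hp
    have h1 : p % L ≡ p [MOD D] := (Nat.mod_modEq p L).of_dvd (Dvd.intro _ rfl)
    have h2 := (h1.mul_left (sp p)).add_left 1
    exact (Nat.modEq_zero_iff_dvd.1 (h2.symm.trans (Nat.modEq_zero_iff_dvd.2 (hspec p hp).2)))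
  have hkpD : ∀ p ∈ S, D * kp p = 1 + sp p * p := fun p hp => Nat.mul_div_cancel' (hDp p hp)
  have hkple : ∀ p ∈ S, kp p ≤ p := by
    intro p hp
    have h1 := hkpD p hp
    have h2 := (hspec p hp).1
    have h3 := (hSp p hp).one_le
    by_contra hlt
    push Not at hlt
    have h4 : D * (p + 1) ≤ D * kp p := Nat.mul_le_mul_left _ hlt
    have h5 : sp p * p + p ≤ D * p := by
      have : (sp p + 1) * p ≤ D * p := Nat.mul_le_mul_right _ h2
      linarith
    have h6 : D * (p + 1) = D * p + D := by ring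
    omega
  -- the local functions
  set tau : ℕ → Fin (m + 2) → ℤ := fun p =>
    vec (kp p * w + V * p) (kp p * w + V * p) (fun l => kp p * v l) with htau
  set g : ℕ → (Fin (m + 2) → ℤ) → ℝ := fun p ω =>
    Fpr (fun i => a i + c i * p) b W cls (ω + tau p) with hg
  have hgb : ∀ p, ∀ ω, |g p ω| ≤ 1 := fun p ω => abs_Fpr_le _ _ _ _ _
  have hgE : ∀ p : ℕ, M.E (g p) = M.E (Fpr (fun i => a i + c i * (p : ℤ)) b W cls) := fun p =>
    M.shift (tau p) _ (bdd_Fpr _ _ _ _)
  -- the dilation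
  set AA : ℕ → ℤ := fun p => V * p + c j * p + a j + kp p * (w + ∑ l, v l * b j l) with hAA
  have hdil : ∀ p ∈ S, M.E (fun ω => (p : ℝ) ^ (m + 2) *
      if ∀ i, (p : ℤ) ∣ ω i then g p ω else 0) =
      M.E (fun ω => RR a c b j W cls w v V (p % L) (sp p) ((1 + sp p * (p % L)) / D) ω *
        B2 (b j) p (AA p) ω) := by
    intro p hp
    rw [← dilE hM p (hSp p hp) (g p) ⟨1, hgb p⟩]
    congr 1
    funext ω
    simp only [hg, htau, hAA]
    exact gp_dil a c b j W cls D hD w v V p (p % L) (sp p) (kp p) _ (hSp p hp) h0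
      (hkpD p hp) (Nat.mul_div_cancel' (hspec p hp).2) (Nat.mod_modEq p L).symm ω
  have hdec := decc M (xx b W) (vec 1 1 0) W R P g S
    (fun p hp => ⟨hSp p hp, hSP p hp, (hScop p hp).coprime_dvd_left (Dvd.intro_left _ rfl)⟩)
    (fun p _ => hgb p) (by
      intro p hp M' hpM ω ω' hwin κ hκ
      have h1 := blk_le hpM
      have h2 : 2 * V * p < R * 2 ^ M' := by
        have h3 : 2 * V * p ≤ 2 * V * 2 ^ (M' + 1) := Nat.mul_le_mul_left _ h1
        have h4 : 0 < 2 ^ M' := by positivity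
        have h5 : R * 2 ^ M' = 4 * V * 2 ^ M' + 2 ^ M' := by rw [hR]; ring
        have h6 : 2 * V * 2 ^ (M' + 1) = 4 * V * 2 ^ M' := by rw [pow_succ]; ring
        omega
      exact gp_window a c b W cls w v V p (R * 2 ^ M') (kp p) hV (hSp p hp).pos (hkple p hp)
        h2 hW ω ω' hwin κ hκ) (by
      intro p hp
      rw [hdil p hp]
      exact M.abs_E_le fun ω => abs_mul_le_one (abs_RR_le _ _ _ _ _ _ _ _ _ _ _ _ ω)
        (abs_B2_le _ _ _ _))
      (fun p _ => M.abs_E_le (hgb p))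
  -- one class
  have hcl : ∀ r ∈ range L, ∑ p ∈ S.filter (fun p => p % L = r),
      (M.E (fun ω => (p : ℝ) ^ (m + 2) * if ∀ i, (p : ℤ) ∣ ω i then g p ω else 0)) ^ 2 ≤ 1 := by
    intro r _
    have e1 : ∑ p ∈ S.filter (fun p => p % L = r),
        (M.E (fun ω => (p : ℝ) ^ (m + 2) * if ∀ i, (p : ℤ) ∣ ω i then g p ω else 0)) ^ 2 =
        ∑ p ∈ S.filter (fun p => p % L = r),
        (M.E (fun ω => RR a c b j W cls w v V r (sF D r) ((1 + sF D r * r) / D) ω *
          B2 (b j) p (AA p) ω)) ^ 2 := by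
      apply Finset.sum_congr rfl
      intro p hp
      obtain ⟨hp1, hp2⟩ := mem_filter.1 hp
      rw [hdil p hp1]
      simp only [hsp, hp2]
    rw [e1]
    apply class_bessel h hM hT (b j) _ (fun p hp => hSp p (mem_filter.1 hp).1) AA _ _
      (fun ω => abs_RR_le _ _ _ _ _ _ _ _ _ _ _ _ ω)
    intro p hp q hq hpq heq
    obtain ⟨hp1, hp2⟩ := mem_filter.1 hp
    obtain ⟨hq1, hq2⟩ := mem_filter.1 hq
    have hs : sp p = sp q := by simp only [hsp, hp2, hq2]
    have k1 : (D : ℤ) * kp p = 1 + sp p * p := by exact_mod_cast hkpD p hp1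
    have k2 : (D : ℤ) * kp q = 1 + sp p * q := by
      have := hkpD q hq1
      rw [← hs] at this
      exact_mod_cast this
    set E : ℤ := w + ∑ l, v l * b j l with hE
    have h3 : ((q : ℤ) - p) * ((D : ℤ) * a j + E) = 0 := by
      have h4 : (q : ℤ) * AA p - p * AA q = 0 := by rw [heq]; ring
      simp only [hAA] at h4
      linear_combination (D : ℤ) * h4 - (q : ℤ) * E * k1 + (p : ℤ) * E * k2
    rcases mul_eq_zero.1 h3 with h4 | h4
    · apply hpq
      have : (q : ℤ) = p := by linarith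
      exact_mod_cast this.symm
    · apply hj
      rw [hE] at h4
      linarith
  -- assembly
  have hsumS : ∑ p ∈ S,
      (M.E (fun ω => (p : ℝ) ^ (m + 2) * if ∀ i, (p : ℤ) ∣ ω i then g p ω else 0)) ^ 2 ≤ L := by
    rw [← Finset.sum_fiberwise_of_maps_to (t := range L) (g := fun p => p % L)
      (fun p _ => mem_range.2 (Nat.mod_lt _ hL0))]
    calc _ ≤ ∑ r ∈ range L, (1 : ℝ) := Finset.sum_le_sum hcl
      _ = L := by simp
  have hgood : ∑ p ∈ S, (1 / (p : ℝ)) * (M.E (Fpr (fun i => a i + c i * (p : ℤ)) b W cls)) ^ 2 ≤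
      2 * (4 * (R * Real.log (Fintype.card A))) + 2 * L := by
    calc ∑ p ∈ S, (1 / (p : ℝ)) * (M.E (Fpr (fun i => a i + c i * (p : ℤ)) b W cls)) ^ 2
        ≤ ∑ p ∈ S, (2 * ((1 / (p : ℝ)) * (M.E (fun ω => (p : ℝ) ^ (m + 2) *
            if ∀ i, (p : ℤ) ∣ ω i then g p ω else 0) - M.E (g p)) ^ 2) +
          2 * (M.E (fun ω => (p : ℝ) ^ (m + 2) *
            if ∀ i, (p : ℤ) ∣ ω i then g p ω else 0)) ^ 2) := by
          apply Finset.sum_le_sum
          intro p hp
          rw [← hgE p]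
          set X := M.E (fun ω => (p : ℝ) ^ (m + 2) *
            if ∀ i, (p : ℤ) ∣ ω i then g p ω else 0)
          set Y := M.E (g p)
          have h1 : (1:ℝ) ≤ p := by exact_mod_cast (hSp p hp).one_le
          have h2 : 0 ≤ 1 / (p : ℝ) := by positivity
          have h3 : 1 / (p : ℝ) ≤ 1 := by
            rw [div_le_one (by linarith)]
            exact h1
          have h4 : Y ^ 2 ≤ 2 * (X - Y) ^ 2 + 2 * X ^ 2 := by
            nlinarith [sq_nonneg (2 * X - Y)]
          calc (1 / (p : ℝ)) * Y ^ 2 ≤ (1 / (p : ℝ)) * (2 * (X - Y) ^ 2 + 2 * X ^ 2) :=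
                mul_le_mul_of_nonneg_left h4 h2
            _ = 2 * ((1 / (p : ℝ)) * (X - Y) ^ 2) + (1 / (p : ℝ)) * (2 * X ^ 2) := by ring
            _ ≤ 2 * ((1 / (p : ℝ)) * (X - Y) ^ 2) + 1 * (2 * X ^ 2) := by
                have : 0 ≤ 2 * X ^ 2 := by positivity
                nlinarith
            _ = _ := by ring
      _ = 2 * ∑ p ∈ S, ((1 / (p : ℝ)) * (M.E (fun ω => (p : ℝ) ^ (m + 2) *
            if ∀ i, (p : ℤ) ∣ ω i then g p ω else 0) - M.E (g p)) ^ 2) +
          2 * ∑ p ∈ S, (M.E (fun ω => (p : ℝ) ^ (m + 2) *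
            if ∀ i, (p : ℤ) ∣ ω i then g p ω else 0)) ^ 2 := by
          rw [Finset.sum_add_distrib, Finset.mul_sum, Finset.mul_sum]
      _ ≤ _ := by linarith
  have hbad := bad_primes U hU L hL0
    (fun p => (M.E (Fpr (fun i => a i + c i * (p : ℤ)) b W cls)) ^ 2)
    (fun p => by
      have h1 : |M.E (Fpr (fun i => a i + c i * (p : ℤ)) b W cls)| ≤ 1 :=
        M.abs_E_le fun ω => abs_Fpr_le _ _ _ _ _
      rw [abs_pow]
      exact pow_le_one₀ (abs_nonneg _) h1)
  rw [← Finset.sum_filter_add_sum_filter_not U (fun p => Nat.Coprime L p)]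
  exact add_le_add hgood hbad

end Pool.Agent.H28.LFP
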