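import Pool.Agent.H32.LF.Ent
import Pool.Agent.H39.LF.DEC

/-!
# The clean entropy decrement: the information on all primes is bounded
-/

set_option autoImplicit false

open Finset Filter

namespace Pool.Agent.H28.LFP

open Pool.Agent.H91.LF
open Pool.Agent.H32.LF
open Pool.Agent.H18.MR (FAP law ent mi)

variable {d : ℕ} {μ : FAP (Fin d → ℤ)}

/-- The primes in `(2 ^ m, 2 ^ (m + 1)]`. -/
def blk (m : ℕ) : Finset ℕ := (Ioc (2 ^ m) (2 ^ (m + 1))).filter Nat.Prime

/-- The product of the primes in the blocks before `m`. -/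
def prm (m : ℕ) : ℕ := ∏ i ∈ range m, ∏ p ∈ blk i, p

theorem blk_prime {m p : ℕ} (h : p ∈ blk m) : p.Prime := (mem_filter.1 h).2

theorem blk_lt {m p : ℕ} (h : p ∈ blk m) : 2 ^ m < p := (mem_Ioc.1 (mem_filter.1 h).1).1

theorem blk_le {m p : ℕ} (h : p ∈ blk m) : p ≤ 2 ^ (m + 1) := (mem_Ioc.1 (mem_filter.1 h).1).2

theorem prod_blk_ne (m : ℕ) : ∏ p ∈ blk m, p ≠ 0 :=
  Finset.prod_ne_zero_iff.2 fun _ hq => (blk_prime hq).ne_zero

theorem prm_ne (m : ℕ) : prm m ≠ 0 :=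
  Finset.prod_ne_zero_iff.2 fun _ _ => prod_blk_ne _

theorem prm_succ (m : ℕ) : prm (m + 1) = prm m * ∏ p ∈ blk m, p := by
  unfold prm
  rw [Finset.prod_range_succ]

theorem prm_coprime (m : ℕ) : Nat.Coprime (prm m) (∏ p ∈ blk m, p) := by
  apply Nat.Coprime.prod_left
  intro i hi
  apply Nat.Coprime.prod_left
  intro p hp
  apply Nat.Coprime.prod_right
  intro q hq
  rw [Nat.coprime_primes (blk_prime hp) (blk_prime hq)]
  have h1 := blk_le hp
  have h2 := blk_lt hq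
  have h3 : i + 1 ≤ m := mem_range.1 hi
  have h4 : 2 ^ (i + 1) ≤ 2 ^ m := Nat.pow_le_pow_right (by norm_num) h3
  omega

/-- The clean decrement. -/
theorem clean (hμ : TI μ) {A : Type} [Fintype A] [DecidableEq A] [Nonempty A]
    (x : (Fin d → ℤ) → A) (e : Fin d → ℤ) (R M : ℕ) :
    ∑ m ∈ range M, (∑ p ∈ blk m, miV μ (blkv x e (R * 2 ^ m)) p) / 2 ^ m ≤
      R * Real.log (Fintype.card A) := by
  have inst1 : ∀ m, NeZero (prm m) := fun m => ⟨prm_ne m⟩
  have inst2 : ∀ m, NeZero (∏ p ∈ blk m, p) := fun m => ⟨prod_blk_ne m⟩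
  set H : ℕ → ℝ := fun m => ent μ (blkv x e (R * 2 ^ m)) -
    mi μ (blkv x e (R * 2 ^ m)) (resv (d := d) (prm m)) with hH
  have hstep : ∀ m, H (m + 1) ≤ 2 * (H m - ∑ p ∈ blk m, miV μ (blkv x e (R * 2 ^ m)) p) := by
    intro m
    have h1 := ent_blkv_mul hμ x e (R * 2 ^ m) (prm (m + 1)) 2
    have e1 : 2 * (R * 2 ^ m) = R * 2 ^ (m + 1) := by rw [pow_succ]; ring
    have h2 : mi μ (blkv x e (R * 2 ^ m)) (resv (d := d) (prm m)) +
        mi μ (blkv x e (R * 2 ^ m)) (resv (d := d) (∏ p ∈ blk m, p)) ≤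
        mi μ (blkv x e (R * 2 ^ m)) (resv (d := d) (prm (m + 1))) := by
      have : NeZero (prm m * ∏ p ∈ blk m, p) := ⟨mul_ne_zero (prm_ne m) (prod_blk_ne m)⟩
      have := mi_mul hμ (blkv x e (R * 2 ^ m)) (prm m) (∏ p ∈ blk m, p) (prm_coprime m)
      rw [← miV_eq, ← miV_eq, ← miV_eq] at this ⊢
      rw [prm_succ]
      exact this
    have h3 := sum_miV_le hμ (blkv x e (R * 2 ^ m)) (blk m) (fun p hp => blk_prime hp)
    rw [miV_eq] at h3
    rw [e1] at h1
    simp only [hH]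
    unfold mi at h2 h3 ⊢
    push_cast at h1
    linarith
  have hpos : ∀ m, 0 ≤ H m := by
    intro m
    simp only [hH]
    unfold mi
    have h1 := Pool.Agent.H18.MR.ent_comp_le μ
      (fun ω => (blkv x e (R * 2 ^ m) ω, resv (d := d) (prm m) ω)) Prod.snd
    simp only at h1
    have e1 : (fun ω => resv (d := d) (prm m) ω) = resv (prm m) := rfl
    rw [e1] at h1
    linarith
  have h0 : H 0 ≤ R * Real.log (Fintype.card A) := by
    have h1 := Pool.Agent.H18.MR.ent_le_log_card μ (blkv x e (R * 2 ^ 0))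
    have h2 := miV_nonneg (μ := μ) (blkv x e (R * 2 ^ 0)) (prm 0)
    rw [miV_eq] at h2
    simp only [hH]
    have e1 : Real.log (Fintype.card (Fin (R * 2 ^ 0) → A)) = R * Real.log (Fintype.card A) := by
      rw [Fintype.card_fun, Fintype.card_fin]
      push_cast
      rw [Real.log_pow]
      push_cast
      ring
    rw [e1] at h1
    linarith
  have htel : ∀ M, ∑ m ∈ range M, (∑ p ∈ blk m, miV μ (blkv x e (R * 2 ^ m)) p) / 2 ^ m ≤
      H 0 - H M / 2 ^ M := by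
    intro M
    induction M with
    | zero => simp
    | succ M ih =>
      rw [Finset.sum_range_succ]
      have h1 := hstep M
      have h2 : H (M + 1) / 2 ^ (M + 1) ≤
          H M / 2 ^ M - (∑ p ∈ blk M, miV μ (blkv x e (R * 2 ^ M)) p) / 2 ^ M := by
        rw [pow_succ, div_le_iff₀ (by positivity)]
        have : (H M / 2 ^ M - (∑ p ∈ blk M, miV μ (blkv x e (R * 2 ^ M)) p) / 2 ^ M) *
            (2 ^ M * 2) = 2 * (H M - ∑ p ∈ blk M, miV μ (blkv x e (R * 2 ^ M)) p) := by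
          field_simp
        rw [this]
        exact h1
      linarith
  have h5 := htel M
  have h6 : 0 ≤ H M / 2 ^ M := div_nonneg (hpos M) (by positivity)
  linarith

/-- The primes up to `P`. -/
def prs (P : ℕ) : Finset ℕ := (Icc 1 P).filter Nat.Prime

theorem prs_subset (P : ℕ) : prs P ⊆ (range P).biUnion blk := by
  intro p hp
  obtain ⟨h1, h2⟩ := mem_filter.1 hp
  obtain ⟨h3, h4⟩ := mem_Icc.1 h1
  have hp2 := h2.two_le
  rw [mem_biUnion]
  -- `2 ^ i < p ≤ 2 ^ (i + 1)` for `i = Nat.clog 2 p - 1`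
  have h5 : p ≤ 2 ^ Nat.clog 2 p := Nat.le_pow_clog (by norm_num) p
  have h6 : 2 ^ (Nat.clog 2 p).pred < p := Nat.pow_pred_clog_lt_self (by norm_num) (by omega)
  have h7 : 0 < Nat.clog 2 p := Nat.clog_pos (by norm_num) (by omega)
  refine ⟨(Nat.clog 2 p).pred, ?_, ?_⟩
  · rw [mem_range]
    have h8 : (Nat.clog 2 p).pred < 2 ^ (Nat.clog 2 p).pred := Nat.lt_two_pow_self
    omega
  · refine mem_filter.2 ⟨mem_Ioc.2 ⟨h6, ?_⟩, h2⟩
    have : (Nat.clog 2 p).pred + 1 = Nat.clog 2 p := Nat.succ_pred_eq_of_pos h7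
    rw [this]
    exact h5

theorem blk_disj {i j : ℕ} (h : i ≠ j) : Disjoint (blk i) (blk j) := by
  rw [Finset.disjoint_left]
  intro p h1 h2
  have a1 := blk_lt h1
  have a2 := blk_le h1
  have b1 := blk_lt h2
  have b2 := blk_le h2
  rcases lt_or_gt_of_ne h with h | h
  · have : 2 ^ (i + 1) ≤ 2 ^ j := Nat.pow_le_pow_right (by norm_num) h
    omega
  · have : 2 ^ (j + 1) ≤ 2 ^ i := Nat.pow_le_pow_right (by norm_num) h
    omega

/-- From `x ≤ u / s + s` for all `s ∈ (0, 1]` to a bound for the square. -/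
theorem sq_le_of_all (x u : ℝ) (hx : 0 ≤ x) (hx2 : x ≤ 2) (hu : 0 ≤ u)
    (h : ∀ s : ℝ, 0 < s → s ≤ 1 → x ≤ u / s + s) : x ^ 2 ≤ 4 * u := by
  rcases le_or_gt 1 u with h1 | h1
  · nlinarith
  rcases hu.eq_or_lt with h0 | h0
  · subst h0
    have hx0 : x ≤ 0 := by
      by_contra hlt
      push Not at hlt
      have h2 := h (min 1 (x / 2)) (lt_min one_pos (by linarith)) (min_le_left _ _)
      rw [zero_div, zero_add] at h2
      have h3 := min_le_right 1 (x / 2)
      linarith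
    have : x = 0 := le_antisymm hx0 hx
    rw [this]
    simp
  · have hs0 : 0 < Real.sqrt u := Real.sqrt_pos.2 h0
    have hs1 : Real.sqrt u ≤ 1 := Real.sqrt_le_one.2 h1.le
    have h2 := h (Real.sqrt u) hs0 hs1
    have h3 : u / Real.sqrt u = Real.sqrt u := Real.div_sqrt
    rw [h3] at h2
    have h4 : Real.sqrt u ^ 2 = u := Real.sq_sqrt hu
    nlinarith

open Classical in
/-- Decoupling for all primes not dividing `W`. The function attached to the prime `p ∈ blk m`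
must be determined by the block of length `R * 2 ^ m`. -/
theorem decc (M : Mean d) {A : Type} [Fintype A] (x : (Fin d → ℤ) → A) (e : Fin d → ℤ)
    (W R P : ℕ) (g : ℕ → (Fin d → ℤ) → ℝ)
    (S : Finset ℕ) (hS : ∀ p ∈ S, p.Prime ∧ p ≤ P ∧ Nat.Coprime W p)
    (hg : ∀ p ∈ S, ∀ ω, |g p ω| ≤ 1)
    (hloc : ∀ p ∈ S, ∀ m : ℕ, p ∈ blk m → ∀ ω ω' : Fin d → ℤ,
      (∀ j : ℕ, j < R * 2 ^ m → x (ω + (j : ℤ) • e) = x (ω' + (j : ℤ) • e)) →
      ∀ k : Fin d → ℤ, (∀ i, 0 ≤ k i ∧ k i < p) →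
        g p (ω + (W : ℤ) • k) = g p (ω' + (W : ℤ) • k))
    (hb : ∀ p ∈ S, |M.E (fun ω => (p : ℝ) ^ d * if ∀ i, (p : ℤ) ∣ ω i then g p ω else 0)| ≤ 1)
    (hb2 : ∀ p ∈ S, |M.E (g p)| ≤ 1) :
    ∑ p ∈ S, (1 / (p : ℝ)) *
      (M.E (fun ω => (p : ℝ) ^ d * if ∀ i, (p : ℤ) ∣ ω i then g p ω else 0) - M.E (g p)) ^ 2 ≤
      4 * (R * Real.log (Fintype.card A)) := by
  have hTI : TI (Pool.Agent.H39.LF.toFAP M) := Pool.Agent.H39.LF.toFAP_shift M
  have : Nonempty A := ⟨x 0⟩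
  set mu := Pool.Agent.H39.LF.toFAP M with hmu
  have hone : ∀ p ∈ S, ∀ m : ℕ, p ∈ blk m →
      (M.E (fun ω => (p : ℝ) ^ d * if ∀ i, (p : ℤ) ∣ ω i then g p ω else 0) - M.E (g p)) ^ 2 ≤
        4 * miV mu (blkv x e (R * 2 ^ m)) p := by
    intro p hp m hm
    have hpp := (hS p hp).1
    have : NeZero p := ⟨hpp.ne_zero⟩
    obtain ⟨f, hf, hf1, hf2⟩ := Pool.Agent.H39.LF.key M p W (hS p hp).2.2 (g p) (hg p hp)
      (blkv x e (R * 2 ^ m)) (by
        intro ω ω' hb k hk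
        apply hloc p hp m hm ω ω' _ k hk
        intro j hj
        exact congrFun hb ⟨j, hj⟩)
    rw [← sq_abs]
    apply sq_le_of_all _ _ (abs_nonneg _) _ (miV_nonneg _ _)
    · intro s hs hs1
      have h3 := Pool.Agent.H39.LF.dv_abs mu (blkv x e (R * 2 ^ m)) (resv (d := d) p) f hf s hs hs1
      rw [hmu, ← hf1 _, ← hf2, ← hmu] at h3
      rw [miV_eq]
      exact h3
    · refine (abs_sub _ _).trans ?_
      have h1 := hb p hp
      have h2 := hb2 p hp
      linarith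
  -- the blocks
  set u : ℕ → ℝ := fun p => (1 / (p : ℝ)) *
      (M.E (fun ω => (p : ℝ) ^ d * if ∀ i, (p : ℤ) ∣ ω i then g p ω else 0) - M.E (g p)) ^ 2
    with hu
  have hsub : S ⊆ (range P).biUnion (fun m => (blk m).filter (fun p => p ∈ S)) := by
    intro p hp
    have h1 : p ∈ prs P := mem_filter.2 ⟨mem_Icc.2 ⟨(hS p hp).1.one_le, (hS p hp).2.1⟩, (hS p hp).1⟩
    obtain ⟨m, hm, hpm⟩ := mem_biUnion.1 (prs_subset P h1)
    exact mem_biUnion.2 ⟨m, hm, mem_filter.2 ⟨hpm, hp⟩⟩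
  have hdis : ∀ m ∈ range P, ∀ m' ∈ range P, m ≠ m' →
      Disjoint ((blk m).filter (fun p => p ∈ S)) ((blk m').filter (fun p => p ∈ S)) := by
    intro m _ m' _ h
    exact Finset.disjoint_of_subset_left (filter_subset _ _)
      (Finset.disjoint_of_subset_right (filter_subset _ _) (blk_disj h))
  have heq : S = (range P).biUnion (fun m => (blk m).filter (fun p => p ∈ S)) := by
    apply Finset.Subset.antisymm hsub
    intro p hp
    obtain ⟨m, _, hpm⟩ := mem_biUnion.1 hp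
    exact (mem_filter.1 hpm).2
  have hsum : ∀ v : ℕ → ℝ, ∑ p ∈ S, v p =
      ∑ m ∈ range P, ∑ p ∈ (blk m).filter (fun p => p ∈ S), v p := by
    intro v
    conv_lhs => rw [heq]
    exact Finset.sum_biUnion hdis
  rw [hsum u]
  have hm : ∀ m ∈ range P, ∑ p ∈ (blk m).filter (fun p => p ∈ S), u p ≤
      4 * ((∑ p ∈ blk m, miV mu (blkv x e (R * 2 ^ m)) p) / 2 ^ m) := by
    intro m _
    calc ∑ p ∈ (blk m).filter (fun p => p ∈ S), u p
        ≤ ∑ p ∈ (blk m).filter (fun p => p ∈ S),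
          (4 * (miV mu (blkv x e (R * 2 ^ m)) p / 2 ^ m)) := by
          apply Finset.sum_le_sum
          intro p hp
          obtain ⟨h1, h2⟩ := mem_filter.1 hp
          have h3 := hone p h2 m h1
          have h4 : (0:ℝ) < 2 ^ m := by positivity
          have h5 : ((2:ℝ) ^ m) ≤ p := by
            have := (blk_lt h1).le
            exact_mod_cast this
          have h6 : 0 ≤ miV mu (blkv x e (R * 2 ^ m)) p := miV_nonneg _ _
          have h7 : (0:ℝ) < p := h4.trans_le h5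
          have h8 : 1 / (p : ℝ) ≤ 1 / (2:ℝ) ^ m := one_div_le_one_div_of_le h4 h5
          simp only [hu]
          calc (1 / (p : ℝ)) * _ ≤ (1 / (2:ℝ) ^ m) * (4 * miV mu (blkv x e (R * 2 ^ m)) p) := by
                apply mul_le_mul h8 h3 (sq_nonneg _) (by positivity)
            _ = _ := by ring
      _ = 4 * ((∑ p ∈ (blk m).filter (fun p => p ∈ S), miV mu (blkv x e (R * 2 ^ m)) p) / 2 ^ m) := by
          rw [Finset.sum_div, Finset.mul_sum]
      _ ≤ _ := by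
          have : ∑ p ∈ (blk m).filter (fun p => p ∈ S), miV mu (blkv x e (R * 2 ^ m)) p ≤
              ∑ p ∈ blk m, miV mu (blkv x e (R * 2 ^ m)) p :=
            Finset.sum_le_sum_of_subset_of_nonneg (filter_subset _ _)
              (fun p _ _ => miV_nonneg _ _)
          gcongr
  calc _ ≤ ∑ m ∈ range P, 4 * ((∑ p ∈ blk m, miV mu (blkv x e (R * 2 ^ m)) p) / 2 ^ m) :=
        Finset.sum_le_sum hm
    _ = 4 * ∑ m ∈ range P, (∑ p ∈ blk m, miV mu (blkv x e (R * 2 ^ m)) p) / 2 ^ m := by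
        rw [Finset.mul_sum]
    _ ≤ _ := by
        have := clean hTI x e R P
        gcongr

end Pool.Agent.H28.LFP
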