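import Pool.Agent.H91.LF.CoreMain
import Pool.Agent.H91.LF.Defs3
import Pool.Agent.H28.LFP.ENTC

/-!
# Module [CP]: linear families of shifts and primes, for means
-/

set_option autoImplicit false

open Finset Filter Topology

namespace Pool.Agent.H28.LFP

open Pool.Agent.H91.LF
open Pool.Agent.H24.MR (lam)

variable {m k : ℕ}

open Classical in
/-- Dilation in the form used here. -/
theorem dilE {d : ℕ} {M : Mean d} (hM : Dil M) (p : ℕ) (hp : p.Prime)
    (f : (Fin d → ℤ) → ℝ) (hf : Bdd f) :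
    M.E (fun ω => f (fun i => (p : ℤ) * ω i)) =
      M.E (fun ω => (p : ℝ) ^ d * if ∀ i, (p : ℤ) ∣ ω i then f ω else 0) := by
  have h1 := hM p hp (fun ω => f (fun i => (p : ℤ) * ω i)) (bdd_comp hf _)
  rw [← h1]
  congr 1
  funext ω
  by_cases h : ∀ i, (p : ℤ) ∣ ω i
  · rw [if_pos h, if_pos h]
    congr 2
    funext i
    exact Int.mul_ediv_cancel' (h i)
  · rw [if_neg h, if_neg h]

/-- The product of the values of `lz` along a form dilated by `p`, for both copies. -/
noncomputable def B2 (b : Fin m → ℤ) (p : ℕ) (A : ℤ) (ω : Fin (m + 2) → ℤ) : ℝ :=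
  lz ((p : ℤ) * frm 0 b (ω 0) (par ω) + A) * lz ((p : ℤ) * frm 0 b (ω 1) (par ω) + A)

theorem abs_B2_le (b : Fin m → ℤ) (p : ℕ) (A : ℤ) (ω : Fin (m + 2) → ℤ) : |B2 b p A ω| ≤ 1 :=
  abs_mul_le_one (abs_lz_le _) (abs_lz_le _)

theorem bdd_B2 (b : Fin m → ℤ) (p : ℕ) (A : ℤ) : Bdd (B2 (m := m) b p A) :=
  ⟨1, abs_B2_le b p A⟩

/-- The two point theorem for two dilated forms. -/
theorem pair_zero (h : StatementCORE) {M : Mean (m + 2)} (hM : Dil M)
    (hT : ∀ (a : ℤ) (b : Fin m → ℤ), Two M a b) (b : Fin m → ℤ) (p q : ℕ) (hp : p.Prime)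
    (hq : q.Prime) (hpq : p ≠ q) (A B : ℤ) (hAB : (q : ℤ) * A ≠ p * B) :
    M.E (fun ω => B2 b p A ω * B2 b q B ω) = 0 := by
  classical
  set a2 : Fin 2 → ℤ := ![(q : ℤ) * A, (p : ℤ) * B] with ha2
  set b2 : Fin 2 → Fin m → ℤ := fun _ => b with hb2
  set F : (Fin (m + 2) → ℤ) → ℝ := Fpr a2 b2 (p * q) 0 with hF
  have hFb : Bdd F := bdd_Fpr _ _ _ _
  have hp0 : (p : ℤ) ≠ 0 := by exact_mod_cast hp.ne_zero
  have hq0 : (q : ℤ) ≠ 0 := by exact_mod_cast hq.ne_zero
  have e1 : (fun ω => B2 b p A ω * B2 b q B ω) =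
      fun ω : Fin (m + 2) → ℤ => F (fun i => (p : ℤ) * ((q : ℤ) * ω i)) := by
    funext ω
    have hcl : ∀ i, (fun i => (p : ℤ) * ((q : ℤ) * ω i)) i ≡
        (0 : Fin (m + 2) → ℤ) i [ZMOD ((p * q : ℕ) : ℤ)] := by
      intro i
      simp only [Pi.zero_apply]
      rw [Int.modEq_zero_iff_dvd]
      exact ⟨ω i, by push_cast; ring⟩
    have f1 : ∀ n : ℤ, frm ((q : ℤ) * A) b ((p : ℤ) * ((q : ℤ) * n))
        (par (fun i => (p : ℤ) * ((q : ℤ) * ω i))) = q * (p * frm 0 b n (par ω) + A) := by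
      intro n
      have hpar : par (fun i => (p : ℤ) * ((q : ℤ) * ω i)) =
          fun l => (p : ℤ) * ((q : ℤ) * par ω l) := rfl
      rw [hpar]
      unfold frm
      have : ∑ l, b l * ((p : ℤ) * ((q : ℤ) * par ω l)) = p * q * ∑ l, b l * par ω l := by
        rw [Finset.mul_sum]
        exact Finset.sum_congr rfl fun l _ => by ring
      rw [this]
      ring
    have f2 : ∀ n : ℤ, frm ((p : ℤ) * B) b ((p : ℤ) * ((q : ℤ) * n))
        (par (fun i => (p : ℤ) * ((q : ℤ) * ω i))) = p * (q * frm 0 b n (par ω) + B) := by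
      intro n
      have hpar : par (fun i => (p : ℤ) * ((q : ℤ) * ω i)) =
          fun l => (p : ℤ) * ((q : ℤ) * par ω l) := rfl
      rw [hpar]
      unfold frm
      have : ∑ l, b l * ((p : ℤ) * ((q : ℤ) * par ω l)) = p * q * ∑ l, b l * par ω l := by
        rw [Finset.mul_sum]
        exact Finset.sum_congr rfl fun l _ => by ring
      rw [this]
      ring
    simp only [hF]
    unfold Fpr
    rw [if_pos hcl, Fin.prod_univ_two]
    simp only [ha2, hb2, Matrix.cons_val_zero, Matrix.cons_val_one]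
    rw [f1, f1, f2, f2, lz_prime_mul hq, lz_prime_mul hq, lz_prime_mul hp, lz_prime_mul hp]
    unfold B2
    ring
  rw [e1]
  have s1 := dilE hM q hq (fun ω => F (fun i => (p : ℤ) * ω i)) (bdd_comp hFb _)
  rw [s1]
  set f4 : (Fin (m + 2) → ℤ) → ℝ := fun ω => (q : ℝ) ^ (m + 2) *
    if ∀ i, (q : ℤ) ∣ ω i then F ω else 0 with hf4
  have hf4b : Bdd f4 := by
    apply bdd_smul
    obtain ⟨C, hC⟩ := hFb
    refine ⟨C, fun ω => ?_⟩
    dsimp only
    split_ifs
    · exact hC _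
    · simpa using (abs_nonneg _).trans (hC 0)
  have e2 : (fun ω : Fin (m + 2) → ℤ => (q : ℝ) ^ (m + 2) *
      if ∀ i, (q : ℤ) ∣ ω i then F (fun i => (p : ℤ) * ω i) else 0) =
      fun ω => f4 (fun i => (p : ℤ) * ω i) := by
    funext ω
    have hiff : (∀ i, (q : ℤ) ∣ (p : ℤ) * ω i) ↔ ∀ i, (q : ℤ) ∣ ω i := by
      constructor
      · intro h1 i
        rcases (Nat.prime_iff_prime_int.1 hq).dvd_or_dvd (h1 i) with h2 | h2
        · exfalso
          have h3 : q ∣ p := by exact_mod_cast h2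
          exact hpq ((Nat.prime_dvd_prime_iff_eq hq hp).1 h3).symm
        · exact h2
      · intro h1 i
        exact (h1 i).mul_left _
    simp only [hf4, hiff]
  rw [e2, dilE hM p hp f4 hf4b]
  have e3 : (fun ω => (p : ℝ) ^ (m + 2) * if ∀ i, (p : ℤ) ∣ ω i then f4 ω else 0) =
      fun ω => ((p : ℝ) ^ (m + 2) * (q : ℝ) ^ (m + 2)) * F ω := by
    funext ω
    by_cases hc : ∀ i, ω i ≡ (0 : Fin (m + 2) → ℤ) i [ZMOD ((p * q : ℕ) : ℤ)]
    · have h1 : ∀ i, ((p : ℤ) * q) ∣ ω i := by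
        intro i
        have := hc i
        simp only [Pi.zero_apply] at this
        rw [Int.modEq_zero_iff_dvd] at this
        push_cast at this
        exact this
      have h2 : ∀ i, (p : ℤ) ∣ ω i := fun i => (Dvd.intro _ rfl).trans (h1 i)
      have h3 : ∀ i, (q : ℤ) ∣ ω i := fun i => (Dvd.intro_left _ rfl).trans (h1 i)
      rw [if_pos h2]
      simp only [hf4]
      rw [if_pos h3]
      ring
    · have h1 : F ω = 0 := by
        simp only [hF]
        unfold Fpr
        rw [if_neg hc]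
      rw [h1, mul_zero]
      have h2 : f4 ω = 0 := by
        simp only [hf4, h1]
        simp
      simp [h2]
  rw [e3, M.smul _ _ hFb]
  have hind : Ind a2 b2 0 := by
    refine ⟨1, - (a2 1), 0, ?_, ?_⟩
    · intro i hi
      have : i = 1 := by
        fin_cases i
        · exact absurd rfl hi
        · rfl
      subst this
      simp
    · simp only [ha2, Matrix.cons_val_zero, Matrix.cons_val_one, Pi.zero_apply, zero_mul,
        Finset.sum_const_zero, add_zero, Nat.cast_one, one_mul]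
      intro h
      apply hAB
      linarith
  have h5 := h m 2 a2 b2 0 (p * q) 0 M (Nat.mul_pos hp.pos hq.pos) hind hM (hT _ _)
  rw [← hF] at h5
  rw [h5, mul_zero]

/-- Bessel's inequality for one residue class of primes. -/
theorem class_bessel (h : StatementCORE) {M : Mean (m + 2)} (hM : Dil M)
    (hT : ∀ (a : ℤ) (b : Fin m → ℤ), Two M a b) (b : Fin m → ℤ) (S : Finset ℕ)
    (hS : ∀ p ∈ S, p.Prime) (A : ℕ → ℤ)
    (hA : ∀ p ∈ S, ∀ q ∈ S, p ≠ q → (q : ℤ) * A p ≠ p * A q)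
    (R : (Fin (m + 2) → ℤ) → ℝ) (hR : ∀ ω, |R ω| ≤ 1) :
    ∑ p ∈ S, (M.E (fun ω => R ω * B2 b p (A p) ω)) ^ 2 ≤ 1 := by
  set x : ℕ → ℝ := fun p => M.E (fun ω => R ω * B2 b p (A p) ω) with hx
  set g : (Fin (m + 2) → ℤ) → ℝ := fun ω => ∑ p ∈ S, x p * B2 b p (A p) ω with hg
  have hgb : Bdd g := bdd_sum _ _ fun p _ => bdd_smul _ (bdd_B2 _ _ _)
  have hRb : Bdd R := ⟨1, hR⟩
  have e1 : ∑ p ∈ S, (x p) ^ 2 = M.E (fun ω => R ω * g ω) := by
    have : (fun ω => R ω * g ω) =
        fun ω => ∑ p ∈ S, x p * (R ω * B2 b p (A p) ω) := by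
      funext ω
      simp only [hg]
      rw [Finset.mul_sum]
      exact Finset.sum_congr rfl fun p _ => by ring
    rw [this, M.E_sum S _ (fun p _ => bdd_smul _ (bdd_mul hRb (bdd_B2 _ _ _)))]
    apply Finset.sum_congr rfl
    intro p _
    rw [M.smul _ _ (bdd_mul hRb (bdd_B2 _ _ _)), sq]
  have e2 : M.E (fun ω => g ω * g ω) = ∑ p ∈ S, ∑ q ∈ S, x p * x q *
      M.E (fun ω => B2 b p (A p) ω * B2 b q (A q) ω) := by
    have : (fun ω => g ω * g ω) = fun ω => ∑ p ∈ S, ∑ q ∈ S, x p * x q *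
        (B2 b p (A p) ω * B2 b q (A q) ω) := by
      funext ω
      simp only [hg]
      rw [Finset.sum_mul_sum]
      exact Finset.sum_congr rfl fun p _ => Finset.sum_congr rfl fun q _ => by ring
    rw [this, M.E_sum S _ (fun p _ => bdd_sum _ _ fun q _ =>
      bdd_smul _ (bdd_mul (bdd_B2 _ _ _) (bdd_B2 _ _ _)))]
    apply Finset.sum_congr rfl
    intro p _
    rw [M.E_sum S _ (fun q _ => bdd_smul _ (bdd_mul (bdd_B2 _ _ _) (bdd_B2 _ _ _)))]
    apply Finset.sum_congr rfl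
    intro q _
    rw [M.smul _ _ (bdd_mul (bdd_B2 _ _ _) (bdd_B2 _ _ _))]
  have e3 : M.E (fun ω => g ω * g ω) ≤ ∑ p ∈ S, (x p) ^ 2 := by
    rw [e2]
    apply Finset.sum_le_sum
    intro p hp
    rw [Finset.sum_eq_single p]
    · have h1 : M.E (fun ω => B2 b p (A p) ω * B2 b p (A p) ω) ≤ 1 :=
        (le_abs_self _).trans (M.abs_E_le fun ω => abs_mul_le_one (abs_B2_le _ _ _ _)
          (abs_B2_le _ _ _ _))
      have h2 : 0 ≤ x p * x p := mul_self_nonneg _
      calc _ ≤ x p * x p * 1 := mul_le_mul_of_nonneg_left h1 h2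
        _ = _ := by ring
    · intro q hq hqp
      rw [pair_zero h hM hT b p q (hS p hp) (hS q hq) (Ne.symm hqp) (A p) (A q)
        (hA p hp q hq (Ne.symm hqp)), mul_zero]
    · intro hp'
      exact absurd hp hp'
  have h3 := M.sq_E_mul_le hR hgb
  rw [← e1] at h3
  have h4 := h3.trans e3
  have h5 : 0 ≤ ∑ p ∈ S, (x p) ^ 2 := Finset.sum_nonneg fun p _ => sq_nonneg _
  by_contra hlt
  push Not at hlt
  nlinarith

open Classical in
/-- The residue `s` with `D ∣ 1 + s r`. -/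
noncomputable def sF (D r : ℕ) : ℕ := if h : ∃ s, s < D ∧ D ∣ 1 + s * r then h.choose else 0

theorem sF_spec (D r : ℕ) (hD : 0 < D) (h : Nat.Coprime r D) :
    sF D r < D ∧ D ∣ 1 + sF D r * r := by
  have hex : ∃ s, s < D ∧ D ∣ 1 + s * r := by
    have : NeZero D := ⟨hD.ne'⟩
    refine ⟨(-((r : ZMod D)⁻¹)).val, ZMod.val_lt _, ?_⟩
    rw [← ZMod.natCast_eq_zero_iff]
    push_cast
    rw [ZMod.natCast_zmod_val]
    have h1 : (r : ZMod D) * (r : ZMod D)⁻¹ = 1 := ZMod.coe_mul_inv_eq_one r h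
    linear_combination -h1
  unfold sF
  rw [dif_pos hex]
  exact hex.choose_spec

open Classical in
/-- The factor that depends on the class of the prime only. -/
noncomputable def RR (a c : Fin k → ℤ) (b : Fin k → Fin m → ℤ) (j : Fin k) (W : ℕ)
    (cls : Fin (m + 2) → ℤ) (w : ℤ) (v : Fin m → ℤ) (V : ℤ) (r s kr : ℕ)
    (ω : Fin (m + 2) → ℤ) : ℝ :=
  if ∀ i, (r : ℤ) * ω i + vec (kr * w + V * r) (kr * w + V * r) (fun l => kr * v l) i ≡
      cls i [ZMOD W] then
    ∏ i ∈ Finset.univ.erase j, (lz (frm (V + c i - s * a i) (b i) (ω 0) (par ω)) *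
      lz (frm (V + c i - s * a i) (b i) (ω 1) (par ω))) else 0

theorem abs_RR_le (a c : Fin k → ℤ) (b : Fin k → Fin m → ℤ) (j : Fin k) (W : ℕ)
    (cls : Fin (m + 2) → ℤ) (w : ℤ) (v : Fin m → ℤ) (V : ℤ) (r s kr : ℕ)
    (ω : Fin (m + 2) → ℤ) : |RR a c b j W cls w v V r s kr ω| ≤ 1 := by
  unfold RR
  split_ifs
  · exact abs_prod_le_one _ _ fun i _ => abs_mul_le_one (abs_lz_le _) (abs_lz_le _)
  · simp

theorem vec_modEq {W : ℕ} {s t : ℤ} {v u : Fin m → ℤ} (h1 : s ≡ t [ZMOD W])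
    (h2 : ∀ l, v l ≡ u l [ZMOD W]) (i : Fin (m + 2)) : vec s s v i ≡ vec t t u i [ZMOD W] := by
  refine Fin.cases h1 (fun i => ?_) i
  refine Fin.cases h1 (fun i => ?_) i
  exact h2 i

/-- The dilated product. -/
theorem gp_dil (a c : Fin k → ℤ) (b : Fin k → Fin m → ℤ) (j : Fin k) (W : ℕ)
    (cls : Fin (m + 2) → ℤ) (D : ℕ) (hD : 0 < D) (w : ℤ) (v : Fin m → ℤ) (V : ℤ)
    (p r s kp kr : ℕ) (hp : p.Prime)
    (h0 : ∀ i, i ≠ j → (D : ℤ) * a i + w + ∑ l, v l * b i l = 0)
    (hkp : D * kp = 1 + s * p) (hkr : D * kr = 1 + s * r) (hpr : p ≡ r [MOD D * W])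
    (ω : Fin (m + 2) → ℤ) :
    Fpr (fun i => a i + c i * p) b W cls ((fun i => (p : ℤ) * ω i) +
      vec (kp * w + V * p) (kp * w + V * p) (fun l => kp * v l)) =
    RR a c b j W cls w v V r s kr ω *
      B2 (b j) p (V * p + c j * p + a j + kp * (w + ∑ l, v l * b j l)) ω := by
  classical
  have hD' : (D : ℤ) ≠ 0 := by exact_mod_cast hD.ne'
  have hkp' : (D : ℤ) * kp = 1 + s * p := by exact_mod_cast hkp
  have hkr' : (D : ℤ) * kr = 1 + s * r := by exact_mod_cast hkr
  have hpr' : ((D * W : ℕ) : ℤ) ∣ (p : ℤ) - r := (Nat.modEq_iff_dvd.1 hpr.symm)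
  have hprW : (p : ℤ) ≡ r [ZMOD W] := by
    rw [Int.modEq_comm, Int.modEq_iff_dvd]
    exact (Dvd.intro_left (D : ℤ) (by push_cast; ring)).trans hpr'
  have hkk : (kp : ℤ) ≡ kr [ZMOD W] := by
    rw [Int.modEq_comm, Int.modEq_iff_dvd]
    obtain ⟨t, ht⟩ := hpr'
    refine ⟨s * t, ?_⟩
    have h1 : (D : ℤ) * ((kp : ℤ) - kr) = D * (W * (s * t)) := by
      rw [mul_sub, hkp', hkr']
      push_cast at ht
      linear_combination (s : ℤ) * ht
    exact mul_left_cancel₀ hD' h1
  have hcl : (∀ i, ((fun i => (p : ℤ) * ω i) +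
      vec (kp * w + V * p) (kp * w + V * p) (fun l => kp * v l)) i ≡ cls i [ZMOD W]) ↔
      ∀ i, (r : ℤ) * ω i + vec (kr * w + V * r) (kr * w + V * r) (fun l => kr * v l) i ≡
        cls i [ZMOD W] := by
    have h1 : ∀ i, ((fun i => (p : ℤ) * ω i) +
        vec (kp * w + V * p) (kp * w + V * p) (fun l => kp * v l)) i ≡
        (r : ℤ) * ω i + vec (kr * w + V * r) (kr * w + V * r) (fun l => kr * v l) i
          [ZMOD W] := by
      intro i
      rw [Pi.add_apply]
      apply Int.ModEq.add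
      · exact hprW.mul_right _
      · apply vec_modEq
        · exact (hkk.mul_right _).add (hprW.mul_left _)
        · intro l
          exact hkk.mul_right _
    exact ⟨fun h i => (h1 i).symm.trans (h i), fun h i => (h1 i).trans (h i)⟩
  -- the values of the forms
  have hf : ∀ (i : Fin k) (n : ℤ), frm (a i + c i * p) (b i) ((p : ℤ) * n + (kp * w + V * p))
      (par ((fun i => (p : ℤ) * ω i) +
        vec (kp * w + V * p) (kp * w + V * p) (fun l => kp * v l))) =
      p * frm 0 (b i) n (par ω) + (V * p + c i * p + a i + kp * (w + ∑ l, v l * b i l)) := by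
    intro i n
    have hpar : par ((fun i => (p : ℤ) * ω i) +
        vec (kp * w + V * p) (kp * w + V * p) (fun l => kp * v l)) =
        (fun l => (p : ℤ) * par ω l) + (fun l => (kp : ℤ) * v l) := rfl
    rw [hpar]
    unfold frm
    have e1 : ∑ l, b i l * ((fun l => (p : ℤ) * par ω l) + (fun l => (kp : ℤ) * v l)) l =
        p * ∑ l, b i l * par ω l + kp * ∑ l, v l * b i l := by
      rw [Finset.mul_sum, Finset.mul_sum, ← Finset.sum_add_distrib]
      apply Finset.sum_congr rfl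
      intro l _
      rw [Pi.add_apply]
      ring
    rw [e1]
    ring
  have hf2 : ∀ (i : Fin k), i ≠ j → ∀ (n : ℤ),
      p * frm 0 (b i) n (par ω) + (V * p + c i * p + a i + kp * (w + ∑ l, v l * b i l)) =
      p * frm (V + c i - s * a i) (b i) n (par ω) := by
    intro i hi n
    have h1 := h0 i hi
    have h2 : (kp : ℤ) * (w + ∑ l, v l * b i l) = -(1 + s * p) * a i := by
      have : w + ∑ l, v l * b i l = -(D * a i) := by linarith
      rw [this]
      linear_combination -(a i) * hkp'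
    rw [h2]
    unfold frm
    ring
  unfold Fpr RR
  simp only [hcl]
  split_ifs with hc
  · rw [← Finset.mul_prod_erase Finset.univ _ (Finset.mem_univ j), mul_comm]
    congr 1
    · apply Finset.prod_congr rfl
      intro i hi
      have hij : i ≠ j := (Finset.mem_erase.1 hi).1
      simp only [Pi.add_apply, vec_zero, vec_one]
      rw [hf, hf, hf2 i hij, hf2 i hij, lz_prime_mul hp, lz_prime_mul hp]
      ring
    · unfold B2
      simp only [Pi.add_apply, vec_zero, vec_one]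
      rw [hf, hf]
  · simp

/-- The window lemma. -/
theorem gp_window (a c : Fin k → ℤ) (b : Fin k → Fin m → ℤ) (W : ℕ)
    (cls : Fin (m + 2) → ℤ) (w : ℤ) (v : Fin m → ℤ) (V p n kp : ℕ)
    (hV : ∀ i, W + |w| + |a i| + |c i| + ∑ l, |b i l| * (W + |v l|) ≤ V)
    (hp : 0 < p) (hkp : kp ≤ p) (hn : 2 * V * p < n)
    (hW : 0 < W) (ω ω' : Fin (m + 2) → ℤ)
    (h : ∀ j : ℕ, j < n →
      xx b W (ω + (j : ℤ) • vec 1 1 0) = xx b W (ω' + (j : ℤ) • vec 1 1 0))
    (κ : Fin (m + 2) → ℤ) (hκ : ∀ i, 0 ≤ κ i ∧ κ i < p) :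
    Fpr (fun i => a i + c i * p) b W cls (ω + (W : ℤ) • κ +
      vec (kp * w + V * p) (kp * w + V * p) (fun l => kp * v l)) =
    Fpr (fun i => a i + c i * p) b W cls (ω' + (W : ℤ) • κ +
      vec (kp * w + V * p) (kp * w + V * p) (fun l => kp * v l)) := by
  classical
  have hp' : (0 : ℤ) < p := by exact_mod_cast hp
  have hW' : (0 : ℤ) < W := by exact_mod_cast hW
  have hkp' : (kp : ℤ) ≤ p := by exact_mod_cast hkp
  have hkp0 : (0 : ℤ) ≤ kp := by positivity
  have hnpos : 0 < n := by omega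
  have hclass : ∀ i, ω i ≡ ω' i [ZMOD W] := by
    intro i
    have h1 := congrFun (congrArg Prod.fst (h 0 hnpos)) i
    simp only [xx, Nat.cast_zero, zero_smul, add_zero] at h1
    exact (ZMod.intCast_eq_intCast_iff _ _ _).1 h1
  set tau : Fin (m + 2) → ℤ := vec (kp * w + V * p) (kp * w + V * p) (fun l => kp * v l) with htau
  have hcl : (∀ i, (ω + (W : ℤ) • κ + tau) i ≡ cls i [ZMOD W]) ↔
      ∀ i, (ω' + (W : ℤ) • κ + tau) i ≡ cls i [ZMOD W] := by
    have h2 : ∀ i, (ω + (W : ℤ) • κ + tau) i ≡ (ω' + (W : ℤ) • κ + tau) i [ZMOD W] := by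
      intro i
      simp only [Pi.add_apply]
      exact ((hclass i).add_right _).add_right _
    exact ⟨fun h1 i => (h2 i).symm.trans (h1 i), fun h1 i => (h2 i).trans (h1 i)⟩
  set J : Fin k → ℤ → ℤ := fun i x => W * x + (kp * w + V * p) + (a i + c i * p) +
    ∑ l, b i l * (W * par κ l + kp * v l) with hJ
  have hfrm : ∀ (i : Fin k) (ω : Fin (m + 2) → ℤ) (x y : ℤ),
      frm (a i + c i * p) (b i) (y + W * x + (kp * w + V * p)) (par (ω + (W : ℤ) • κ + tau)) =
      frm (J i x) (b i) y (par ω) := by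
    intro i ω x y
    have : par (ω + (W : ℤ) • κ + tau) = fun l => par ω l + (W * par κ l + kp * v l) := by
      funext l
      have h1 : tau l.succ.succ = kp * v l := rfl
      simp only [par, Pi.add_apply, Pi.smul_apply, smul_eq_mul, h1]
      ring
    rw [this]
    unfold frm
    simp only [hJ, mul_add, Finset.sum_add_distrib]
    ring
  have hJb : ∀ (i : Fin k) (x : ℤ), 0 ≤ x → x < p → 0 ≤ J i x ∧ J i x < n := by
    intro i x hx0 hx
    have hsum : |∑ l, b i l * (W * par κ l + kp * v l)| ≤ p * ∑ l, |b i l| * (W + |v l|) := by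
      calc |∑ l, b i l * (W * par κ l + kp * v l)|
          ≤ ∑ l, |b i l * (W * par κ l + kp * v l)| := Finset.abs_sum_le_sum_abs _ _
        _ ≤ ∑ l, p * (|b i l| * (W + |v l|)) := by
            apply Finset.sum_le_sum
            intro l _
            have hl := hκ l.succ.succ
            have h3 : par κ l = κ l.succ.succ := rfl
            rw [h3, abs_mul]
            have h4 : 0 ≤ |b i l| := abs_nonneg _
            have h5 : |(W : ℤ) * κ l.succ.succ + kp * v l| ≤ W * p + p * |v l| := by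
              refine (abs_add_le _ _).trans ?_
              rw [abs_mul, abs_mul, abs_of_pos hW', abs_of_nonneg hl.1, abs_of_nonneg hkp0]
              have h6 : (W : ℤ) * κ l.succ.succ ≤ W * p :=
                mul_le_mul_of_nonneg_left hl.2.le hW'.le
              have h7 : (kp : ℤ) * |v l| ≤ p * |v l| :=
                mul_le_mul_of_nonneg_right hkp' (abs_nonneg _)
              linarith
            calc |b i l| * |(W : ℤ) * κ l.succ.succ + kp * v l| ≤
                |b i l| * (W * p + p * |v l|) := mul_le_mul_of_nonneg_left h5 h4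
              _ = p * (|b i l| * (W + |v l|)) := by ring
        _ = p * ∑ l, |b i l| * (W + |v l|) := by rw [Finset.mul_sum]
    have h1 := abs_le.1 hsum
    have h2 := abs_le.1 (le_refl |a i|)
    have h2' := abs_le.1 (le_refl |c i|)
    have h2'' := abs_le.1 (le_refl |w|)
    have h3 : (p : ℤ) * (W + |w| + |a i| + |c i| + ∑ l, |b i l| * (W + |v l|)) ≤ p * V :=
      mul_le_mul_of_nonneg_left (hV i) hp'.le
    have h4 : c i * p ≤ p * |c i| := by nlinarith
    have h5 : -(p * |c i|) ≤ c i * p := by nlinarith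
    have h6 : (0 : ℤ) ≤ W * x := mul_nonneg hW'.le hx0
    have h7 : (W : ℤ) * x ≤ W * p := mul_le_mul_of_nonneg_left hx.le hW'.le
    have h8 : (kp : ℤ) * w ≤ p * |w| := by
      calc (kp : ℤ) * w ≤ kp * |w| := mul_le_mul_of_nonneg_left h2''.2 hkp0
        _ ≤ p * |w| := mul_le_mul_of_nonneg_right hkp' (abs_nonneg _)
    have h9 : -(p * |w|) ≤ (kp : ℤ) * w := by
      have : (kp : ℤ) * |w| ≤ p * |w| := mul_le_mul_of_nonneg_right hkp' (abs_nonneg _)
      have h10 : (kp : ℤ) * (-|w|) ≤ kp * w := mul_le_mul_of_nonneg_left h2''.1 hkp0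
      linarith
    have h11 : |a i| ≤ p * |a i| := by
      have : (1 : ℤ) ≤ p := hp'
      nlinarith [abs_nonneg (a i)]
    have h12 : 2 * (V : ℤ) * p < n := by exact_mod_cast hn
    have h13 : (p : ℤ) * (W + |w| + |a i| + |c i| + ∑ l, |b i l| * (W + |v l|)) =
        W * p + p * |w| + p * |a i| + p * |c i| + p * ∑ l, |b i l| * (W + |v l|) := by ring
    have h14 : (p : ℤ) * V = V * p := mul_comm _ _
    simp only [hJ]
    constructor
    · linarith
    · linarith
  have hterm : ∀ i : Fin k,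
      lz (frm (a i + c i * p) (b i) ((ω + (W : ℤ) • κ + tau) 0) (par (ω + (W : ℤ) • κ + tau))) *
      lz (frm (a i + c i * p) (b i) ((ω + (W : ℤ) • κ + tau) 1) (par (ω + (W : ℤ) • κ + tau))) =
      lz (frm (a i + c i * p) (b i) ((ω' + (W : ℤ) • κ + tau) 0)
        (par (ω' + (W : ℤ) • κ + tau))) *
      lz (frm (a i + c i * p) (b i) ((ω' + (W : ℤ) • κ + tau) 1)
        (par (ω' + (W : ℤ) • κ + tau))) := by
    intro i
    have g0 : ∀ ω : Fin (m + 2) → ℤ, (ω + (W : ℤ) • κ + tau) 0 =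
        ω 0 + W * κ 0 + (kp * w + V * p) := by
      intro ω
      simp [htau]
    have g1 : ∀ ω : Fin (m + 2) → ℤ, (ω + (W : ℤ) • κ + tau) 1 =
        ω 1 + W * κ 1 + (kp * w + V * p) := by
      intro ω
      simp [htau]
    rw [g0, g1, g0, g1, hfrm, hfrm, hfrm, hfrm]
    have hb0 := hJb i (κ 0) (hκ 0).1 (hκ 0).2
    have hb1 := hJb i (κ 1) (hκ 1).1 (hκ 1).2
    rw [(xx_window b W n ω ω' h _ hb0.1 hb0.2 i).1, (xx_window b W n ω ω' h _ hb1.1 hb1.2 i).2]
  unfold Fpr
  simp only [hcl]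
  split_ifs with hc
  · exact Finset.prod_congr rfl fun i _ => hterm i
  · rfl

end Pool.Agent.H28.LFP
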